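import Pool.Agent.NBT.StmtsA

/-!
# NBT, row NPR: the N-principle
-/

set_option autoImplicit false

open Matrix Filter Topology

namespace Pool.Agent.NBT.H16

open Pool.Agent.PFS Pool.Agent.PFJ Pool.Agent.NBT

section

variable {n K : ℕ}

theorem sum_single (w : Fin K → V n) (k : Fin K) (a : ℝ) :
    ∑ i, (Pi.single k a : Fin K → ℝ) i • w i = a • w k := by
  rw [Finset.sum_eq_single k]
  · rw [Pi.single_eq_same]
  · intro i _ hi
    rw [Pi.single_eq_of_ne hi, zero_smul]
  · intro h
    exact absurd (Finset.mem_univ k) h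

theorem sum_two (w : Fin K → V n) (k m : Fin K) (a b : ℝ) :
    ∑ i, (Pi.single k a + Pi.single m b : Fin K → ℝ) i • w i = a • w k + b • w m := by
  simp only [Pi.add_apply, add_smul, Finset.sum_add_distrib, sum_single]

theorem sum_three (w : Fin K → V n) (k m j : Fin K) (a b c : ℝ) :
    ∑ i, (Pi.single k a + Pi.single m b + Pi.single j c : Fin K → ℝ) i • w i =
      a • w k + b • w m + c • w j := by
  simp only [Pi.add_apply, add_smul, Finset.sum_add_distrib, sum_single]

theorem nprF (hTBF : TbfStmt) (hPJE : PjeStmt) (hPJF : PjfStmt) : NprStmt := by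
  intro n C Γ Γ₀ K T c h w w' tw tw' k m j hkm hmj hkj hc hout hB
  have hC := h.cc
  have hP : PCone C := hC.toPCone
  have hul : HulFacts C Γ := hC.hul
  have hw := h.pes w tw
  have hw' := h.pes w' tw'
  have cw : ∀ i, w i ∈ closure C := fun i => hul.lamCl _ (hw.2 i)
  have cw' : ∀ i, w' i ∈ closure C := fun i => hul.lamCl _ (hw'.2 i)
  obtain ⟨t1, t2, -, -, t5, t6, -, -, -, -, -, -⟩ := hTBF n C Γ Γ₀ K T c h w tw
  obtain ⟨u1, u2, u3, -, -, u6, -, -, -, u10, -, -⟩ := hTBF n C Γ Γ₀ K T c h w' tw'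
  obtain ⟨p, hp⟩ := hPJE n C Γ Γ₀ K T c h w tw {k, m}
  obtain ⟨p', hp'⟩ := hPJE n C Γ Γ₀ K T c h w' tw' {k, m}
  obtain ⟨j1, j2, -, -, -, j6, -⟩ := hPJF n C Γ Γ₀ K T c h w tw {k, m} p hp
  have hout' : ∀ l, l ∉ ({k, m} : Finset (Fin K)) → w' l = w l := by
    intro l hl
    simp only [Finset.mem_insert, Finset.mem_singleton, not_or] at hl
    exact hout l hl.1 hl.2
  obtain ⟨-, j6'⟩ := j6 w' tw' hout' p' hp'
  have hjI : j ∉ ({k, m} : Finset (Fin K)) := by
    simp only [Finset.mem_insert, Finset.mem_singleton, not_or]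
    exact ⟨hkj.symm, hmj.symm⟩
  have hwj : w' j = w j := hout' j hjI
  have hkI : w' k ∈ BI C w' {k, m} := (u6 k _).2 (by simp)
  have hmI : w' m ∈ BI C w' {k, m} := (u6 m _).2 (by simp)
  set q : V n := p (w' k) with hq
  have hqI : q ∈ BI C w {k, m} := hp.mem _
  have hqc : q ∈ closure C := hp.pos _ (cw' k)
  have hp'q : p' q = w' k := j6' _ hkI
  have hq0 : q ≠ 0 := by
    intro h0
    rw [h0, map_zero] at hp'q
    exact hul.lamNe _ (hw'.2 k) hp'q.symm
  -- `q` is not a unit
  have hnu : ¬ Unt C (BI C w {k, m}) q := by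
    intro hu
    obtain ⟨M, hM, h1⟩ := hu.2.2 (p (w' m)) (hp.mem _)
    have h2 := hp'.pos _ h1
    rw [map_sub, map_smul, hp'q, j6' _ hmI] at h2
    have h3 := nng n C hP (Fin K) w' hw'.1 (Pi.single k M + Pi.single m (-1)) (by
      rw [sum_two]
      have e : M • w' k + (-1 : ℝ) • w' m = M • w' k - w' m := by module
      rw [e]
      exact h2) m
    simp only [Pi.add_apply, Pi.single_eq_same, Pi.single_eq_of_ne hkm.symm] at h3
    linarith
  -- the sum with `q` is not in `C`
  have hpz : p (∑ l ∈ Finset.univ.erase m, w' l) = q := by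
    rw [map_sum, Finset.sum_eq_single k]
    · intro l hl hlk
      have hlm : l ≠ m := Finset.ne_of_mem_erase hl
      rw [hout l hlk hlm]
      exact j1 l (by
        simp only [Finset.mem_insert, Finset.mem_singleton, not_or]
        exact ⟨hlk, hlm⟩)
    · intro hk
      exact absurd (Finset.mem_erase.2 ⟨hkm, Finset.mem_univ k⟩) hk
  have hzn : (∑ l ∈ Finset.univ.erase m, w' l) + q ∉ C := by
    intro hz
    have h1 := j2 _ hz
    rw [map_add, hpz, hp.idB q hqI] at h1
    refine hnu ⟨hqI, hqc, fun z hzI => ?_⟩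
    obtain ⟨M, hM, h2⟩ := h1.2.2 z hzI
    refine ⟨M + M, by linarith, ?_⟩
    have e : (M + M) • q - z = M • (q + q) - z := by module
    rw [e]
    exact h2
  -- `q` is in the limit set
  obtain ⟨M₀, hM₀, hM₀q⟩ := (t1 {k, m}).2.2 q hqI
  rw [fS_pair w hkm] at hM₀q
  have hsum : w k + w m ∈ LamC C Γ := by
    refine Pool.Agent.PFS.H37.cloF n C Γ hC (fun _ => w k + w m) (w k + w m)
      (fun _ => hul.add _ (hul.lamHull _ (hw.2 k)) _ (hul.lamHull _ (hw.2 m)))
      tendsto_const_nhds ?_ ?_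
    · have h1 := hw.1.bd (Pi.single k 1 + Pi.single m 1) (fun i => by
        rw [Pi.add_apply]
        have a1 : (0 : ℝ) ≤ (Pi.single k (1 : ℝ) : Fin K → ℝ) i := by
          rw [Pi.single_apply]
          split_ifs <;> norm_num
        have a2 : (0 : ℝ) ≤ (Pi.single m (1 : ℝ) : Fin K → ℝ) i := by
          rw [Pi.single_apply]
          split_ifs <;> norm_num
        exact add_nonneg a1 a2) ⟨j, by
          rw [Pi.add_apply, Pi.single_eq_of_ne hkj.symm, Pi.single_eq_of_ne hmj.symm, add_zero]⟩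
      rw [sum_two, one_smul, one_smul] at h1
      exact h1
    · intro h0
      have h1 : w m = - w k := by
        rw [eq_neg_iff_add_eq_zero, add_comm]
        exact h0
      exact hul.lamNe _ (hw.2 k) (hP.salient _ (cw k) (h1 ▸ cw m))
  have hqL : q ∈ LamC C Γ :=
    Pool.Agent.PFS.H37.flmF n C Γ hC _ (hul.lamSmul _ hsum M₀ hM₀) q hqc hq0 hM₀q
  -- domination
  obtain ⟨M, hM, hMq⟩ := Pool.Agent.PFJ.H10.fmx n C Γ hC K h.three h.maxc w' m q hw' hqL hzn
  have hsub : ({k, m} : Finset (Fin K)) ⊆ {k, m, j} := by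
    intro i hi
    simp only [Finset.mem_insert, Finset.mem_singleton] at hi ⊢
    tauto
  have hq3 : q ∈ BI C w' {k, m, j} := hB ▸ t5 _ _ hsub hqI
  have hv3 : M • (w' k + w' j) - q ∈ BI C w' {k, m, j} :=
    Submodule.sub_mem _ (Submodule.smul_mem _ _ (Submodule.add_mem _
      ((u6 k _).2 (by simp)) ((u6 j _).2 (by simp)))) hq3
  have hv : M • (w' k + w' j) - q ∈ closure C := by
    refine u3 {k, m, j} _ hv3 (fun _ => M) ?_
    have e1 : fS w' {k, m, j} = w' k + (w' m + w' j) := by
      unfold fS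
      rw [Finset.sum_insert (by
          simp only [Finset.mem_insert, Finset.mem_singleton, not_or]
          exact ⟨hkm, hkj⟩), Finset.sum_pair hmj]
    have e2 := fS_add_compl w' {k, m, j}
    have e3 : ∑ l ∈ Finset.univ.erase m, w' l = ∑ l, w' l - w' m := by
      rw [Finset.sum_erase_eq_sub (Finset.mem_univ m)]
    have e4 : ∑ l ∈ ({k, m, j} : Finset (Fin K))ᶜ, M • w' l = M • fS w' {k, m, j}ᶜ := by
      unfold fS
      rw [Finset.smul_sum]
    have e5 : M • (w' k + w' j) - q + ∑ l ∈ ({k, m, j} : Finset (Fin K))ᶜ, M • w' l =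
        M • (∑ l ∈ Finset.univ.erase m, w' l) - q := by
      rw [e3, e4, ← e2, e1]
      module
    rw [e5]
    exact hMq
  have hqkj : q ∈ BI C w' {k, j} := by
    refine u2 {k, j} q hqc M ?_
    rw [fS_pair w' hkj]
    exact hv
  obtain ⟨a, b, hab⟩ := u10 k j hkj hc q hqkj
  have hb : 0 ≤ b := by
    have h1 := nng n C hP (Fin K) w' hw'.1 (Pi.single k a + Pi.single j b) (by
      rw [sum_two, ← hab]
      exact hqc) j
    simpa only [Pi.add_apply, Pi.single_eq_same, Pi.single_eq_of_ne hkj.symm, zero_add] using h1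
  have ha : a = 1 := by
    have h1 : p q = a • q := by
      conv_lhs => rw [hab]
      rw [map_add, map_smul, map_smul, ← hq, hwj, j1 j hjI, smul_zero, add_zero]
    rw [hp.idB q hqI] at h1
    have h2 : (1 - a) • q = 0 := by
      rw [sub_smul, one_smul, ← h1, sub_self]
    rcases smul_eq_zero.1 h2 with h3 | h3
    · linarith
    · exact absurd h3 hq0
  rcases hb.eq_or_lt with hb0 | hb0
  · have e : w' k = q := by
      rw [hab, ha, ← hb0, one_smul, zero_smul, add_zero]
    rw [e]
    exact hqI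
  · exfalso
    have h1 : q - b • w j ∈ closure C := by
      have e : q - b • w j = w' k := by
        rw [← hwj]
        nth_rewrite 1 [hab]
        rw [ha]
        module
      rw [e]
      exact cw' k
    have h2 := hP.cl_add hM₀q h1
    have h3 := nng n C hP (Fin K) w hw.1 (Pi.single k M₀ + Pi.single m M₀ + Pi.single j (-b)) (by
      rw [sum_three]
      have e : M₀ • w k + M₀ • w m + (-b) • w j = M₀ • (w k + w m) - q + (q - b • w j) := by
        module
      rw [e]
      exact h2) j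
    simp only [Pi.add_apply, Pi.single_eq_same, Pi.single_eq_of_ne hkj.symm,
      Pi.single_eq_of_ne hmj.symm] at h3
    linarith

end

end Pool.Agent.NBT.H16
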