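import Pool.Agent.NBT.StmtsC

/-!
# NBT, row ZLT: limits of other simplices along the zoom of `w` are in the family
-/

set_option autoImplicit false

open Matrix Filter Topology

namespace Pool.Agent.NBT.H16

open Pool.Agent.PFS Pool.Agent.PFJ Pool.Agent.NBT

theorem sum_ite {n K : ℕ} (w : Fin K → V n) (S : Finset (Fin K)) (e : ℝ) :
    ∑ i, (if i ∈ S then e else 1) • w i = ∑ i, w i + (e - 1) • fS w S := by
  have h1 : ∀ i, (if i ∈ S then e else 1) • w i = w i + (if i ∈ S then (e - 1) • w i else 0) := by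
    intro i
    split_ifs with hi
    · module
    · module
  rw [Finset.sum_congr rfl fun i _ => h1 i, Finset.sum_add_distrib, Finset.sum_ite_mem,
    Finset.univ_inter, fS, Finset.smul_sum]

theorem zltF : ZltStmt := by
  intro n C Γ Γ₀ K T c h w hw S θ g s W P Q hθ hg hs hZ w' W' hw' hM hlim
  have hC := h.cc
  have hP : PCone C := hC.toPCone
  have hgΓ : ∀ m, g m ∈ Γ := fun m => h.sub (hg m)
  have hpw : ∑ i, w i ∈ C := by
    have h1 := (h.pes w hw).1.pos (fun _ => 1) (fun _ => one_pos)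
    simpa using h1
  have hpw' : ∑ i, w' i ∈ C := by
    have h1 := (h.pes w' hw').1.pos (fun _ => 1) (fun _ => one_pos)
    simpa using h1
  have hpW : ∑ i, W i ∈ C := by
    have h1 := (h.pes W hZ.tw).1.pos (fun _ => 1) (fun _ => one_pos)
    simpa using h1
  have hcl' : ∀ i, w' i ∈ closure C := by
    intro i
    obtain ⟨t, ht, u, hu, e⟩ := (h.pes w' hw').2 i
    rw [e]
    exact hP.cl_smul hu.2.1 ht.le
  have hfS' : fS w' S ∈ closure C := by
    unfold fS
    exact hP.cl_sum fun i _ => hcl' i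
  have hX : ∀ m, T (fun i => s m • act (g m)
      ((if i ∈ S then Real.exp (θ m) else 1) • w' i)) := by
    intro m
    have h1 := h.scl w' hw' (fun i => if i ∈ S then Real.exp (θ m) else 1) (fun i => by
      split_ifs
      · exact Real.exp_pos _
      · exact one_pos)
    have h2 := h.inv _ h1 (g m) (hg m)
    exact h.scl _ h2 (fun _ => s m) (fun _ => hs m)
  refine h.cld _ W' hX hlim ?_
  obtain ⟨M₁, hM₁, h1⟩ := hP.absorb hpw' (∑ i, w i)
  obtain ⟨M₂, h2⟩ := hM
  have hM0 : 0 < max M₁ M₂ := lt_max_of_lt_left hM₁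
  have a1 : (max M₁ M₂) • ∑ i, w' i - ∑ i, w i ∈ closure C := by
    have h3 := hP.cl_add (subset_closure h1)
      (hP.cl_smul (subset_closure hpw') (sub_nonneg.2 (le_max_left M₁ M₂)))
    have e : M₁ • ∑ i, w' i - ∑ i, w i + (max M₁ M₂ - M₁) • ∑ i, w' i =
        (max M₁ M₂) • ∑ i, w' i - ∑ i, w i := by module
    rwa [e] at h3
  have a2 : (max M₁ M₂) • fS w' S - fS w S ∈ closure C := by
    have h3 := hP.cl_add h2 (hP.cl_smul hfS' (sub_nonneg.2 (le_max_right M₁ M₂)))
    have e : M₂ • fS w' S - fS w S + (max M₁ M₂ - M₂) • fS w' S =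
        (max M₁ M₂) • fS w' S - fS w S := by module
    rwa [e] at h3
  have hev : ∀ᶠ m in atTop, (max M₁ M₂) • (∑ i, s m • act (g m)
        ((if i ∈ S then Real.exp (θ m) else 1) • w' i)) -
      ∑ i, s m • act (g m) ((if i ∈ S then Real.exp (θ m) else 1) • w i) ∈ closure C := by
    filter_upwards [hθ.eventually_ge_atTop 0] with m hm
    have he : 0 ≤ Real.exp (θ m) - 1 := by
      have := Real.one_le_exp hm
      linarith
    have h3 := hP.cl_add a1 (hP.cl_smul a2 he)
    have h4 := (hC.sact_cl_iff (hgΓ m) (hs m)).2 h3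
    have e : s m • act (g m) ((max M₁ M₂) • ∑ i, w' i - ∑ i, w i +
        (Real.exp (θ m) - 1) • ((max M₁ M₂) • fS w' S - fS w S)) =
        (max M₁ M₂) • (∑ i, s m • act (g m)
          ((if i ∈ S then Real.exp (θ m) else 1) • w' i)) -
        ∑ i, s m • act (g m) ((if i ∈ S then Real.exp (θ m) else 1) • w i) := by
      rw [← Finset.smul_sum, ← Finset.smul_sum, ← CC.act_sum, ← CC.act_sum, sum_ite, sum_ite]
      simp only [CC.act_add, CC.act_sub, CC.act_smul]
      module
    rwa [e] at h4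
  have l1 : Tendsto (fun m => (max M₁ M₂) • (∑ i, s m • act (g m)
        ((if i ∈ S then Real.exp (θ m) else 1) • w' i)) -
      ∑ i, s m • act (g m) ((if i ∈ S then Real.exp (θ m) else 1) • w i)) atTop
      (𝓝 ((max M₁ M₂) • (∑ i, W' i) - ∑ i, W i)) :=
    ((tendsto_finsetSum _ fun i _ => hlim i).const_smul _).sub
      (tendsto_finsetSum _ fun i _ => hZ.lim i)
  have l2 := isClosed_closure.mem_of_tendsto l1 hev
  exact (hP.smul_iff hM0).1 (hP.mem_of_le hpW l2)

end Pool.Agent.NBT.H16
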